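import Mathlib
import Pool.Agent.H202.ST.Core

/-!
# A minor which is not contracted, and conjugates, with explicit constants
-/

set_option autoImplicit false

open Finset Matrix

namespace Pool.Agent.H202.OB

open Pool.Agent.H202.ST

variable {d r : ℕ}

/-- The minors of the conjugates of a basis `v` of a rational space which are not contracted. -/
theorem stepB {M : Matrix (Fin d) (Fin d) ℝ} (hM : M.det ≠ 0)
    (v : Fin r → Matrix (Fin d) (Fin d) ℤ) (hv : LinearIndependent ℚ (fun k => zq d (v k)))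
    {C1 : ℝ} (hC11 : 1 ≤ C1) (x y : Fin d → ℝ) (Vn Vm : Matrix (Fin d) (Fin d) ℤ)
    (hx : ∑ i, x i = 0) (hy : ∑ i, y i = 0) (hVn : IsUnit Vn.det) (hVm : IsUnit Vm.det)
    (hbn : ∀ i j, |mv M x Vn i j| ≤ C1) (hbm : ∀ i j, |mv M y Vm i j| ≤ C1) :
    ∃ J : Fin r → Fin d × Fin d,
      1 ≤ ((Fintype.card (Fin r → Fin d × Fin d) : ℝ) *
        (|M.det|⁻¹ * ((d.factorial : ℝ) * C1 ^ d) * C1) ^ r) *
        (Real.exp (∑ l, (x (J l).1 - y (J l).2)) *
          |(Matrix.of fun k l => cj M (zr d (v k)) (J l).1 (J l).2 :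
            Matrix (Fin r) (Fin r) ℝ).det|) := by
  classical
  have hMu : IsUnit M.det := isUnit_iff_ne_zero.2 hM
  set K : ℝ := |M.det|⁻¹ * ((d.factorial : ℝ) * C1 ^ d) * C1 with hK
  have hK0 : 0 < K := by
    have : 0 < |M.det| := abs_pos.2 hM
    positivity
  set B : ℝ := (Fintype.card (Fin r → Fin d × Fin d) : ℝ) * K ^ r with hB
  have hB0 : 0 ≤ B := by positivity
  -- the integral matrices
  set X : Fin r → Matrix (Fin d) (Fin d) ℤ := fun k => Vn⁻¹ * v k * Vm with hX
  -- an integral minor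
  set P : Matrix (Fin d × Fin d) (Fin r) ℚ := fun p k => zq d (X k) p.1 p.2 with hP
  obtain ⟨f, hf⟩ := exists_minor' P (by
    intro z hz
    have h1 : ∑ k, z k • zq d (X k) = 0 := by
      ext i j
      have h2 := congrFun hz (i, j)
      rw [Matrix.mulVec, dotProduct] at h2
      rw [Matrix.sum_apply]
      simp only [Matrix.smul_apply, smul_eq_mul, Matrix.zero_apply]
      simp only [hP, Pi.zero_apply] at h2
      rw [← h2]
      exact Finset.sum_congr rfl fun k _ => mul_comm _ _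
    have h2 : zq d Vn * (∑ k, z k • zq d (X k)) * zq d Vm⁻¹ = ∑ k, z k • zq d (v k) := by
      rw [Finset.mul_sum, Finset.sum_mul]
      refine Finset.sum_congr rfl fun k _ => ?_
      rw [Matrix.mul_smul, Matrix.smul_mul]
      congr 1
      rw [hX, ← map_mul, ← map_mul]
      congr 1
      calc Vn * (Vn⁻¹ * v k * Vm) * Vm⁻¹ = (Vn * Vn⁻¹) * v k * (Vm * Vm⁻¹) := by
            simp only [Matrix.mul_assoc]
        _ = v k := by
            rw [Matrix.mul_nonsing_inv _ hVn, Matrix.mul_nonsing_inv _ hVm, Matrix.one_mul,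
              Matrix.mul_one]
    rw [h1, Matrix.mul_zero, Matrix.zero_mul] at h2
    have h3 := Fintype.linearIndependent_iff.1 hv z h2.symm
    funext k
    exact h3 k)
  -- the real matrix of the minor
  set Y : Matrix (Fin r) (Fin d × Fin d) ℝ := fun k p =>
    Real.exp (x p.1) * cj M (zr d (v k)) p.1 p.2 * Real.exp (-y p.2) with hY
  set Cf : Matrix (Fin d × Fin d) (Fin r) ℝ := fun p l =>
    (mv M x Vn)⁻¹ (f l).1 p.1 * mv M y Vm p.2 (f l).2 with hCf
  have hCfb : ∀ p l, |Cf p l| ≤ K := by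
    intro p l
    rw [hCf]
    simp only
    rw [abs_mul]
    have h1 := inv_bound (A := mv M x Vn) (C := C1) (fun i j => hbn i j)
      hC11 (f l).1 p.1
    rw [mv_det M hx hVn] at h1
    have h2 : |mv M y Vm p.2 (f l).2| ≤ C1 := hbm _ _
    exact mul_le_mul h1 h2 (abs_nonneg _) (by positivity)
  have hinvn : zr d Vn⁻¹ = (zr d Vn)⁻¹ := by
    symm
    apply Matrix.inv_eq_right_inv
    rw [← map_mul, Matrix.mul_nonsing_inv _ hVn, map_one]
  have hXr : ∀ k, zr d (X k) = (mv M x Vn)⁻¹ *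
      (Matrix.diagonal (fun i => Real.exp (x i)) * cj M (zr d (v k)) *
        Matrix.diagonal (fun i => Real.exp (-y i))) * mv M y Vm := by
    intro k
    rw [hX, map_mul, map_mul, hinvn]
    exact conj_eq hMu x y hVn _
  have hprod : Y * Cf = (Matrix.of fun k l => zr d (X k) (f l).1 (f l).2) := by
    ext k l
    rw [Matrix.of_apply, hXr k, Matrix.mul_apply, Matrix.mul_apply, Fintype.sum_prod_type,
      Finset.sum_comm]
    refine Finset.sum_congr rfl fun j _ => ?_
    rw [Matrix.mul_apply, Finset.sum_mul]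
    refine Finset.sum_congr rfl fun i _ => ?_
    rw [hY, hCf]
    simp only
    rw [Matrix.mul_diagonal, Matrix.diagonal_mul]
    ring
  have hdetZ : (Y * Cf).det = (((Matrix.of fun k l => X k (f l).1 (f l).2 :
      Matrix (Fin r) (Fin r) ℤ).det : ℤ) : ℝ) := by
    rw [hprod, Int.cast_det]
    congr 1
  have hdetQ : (P.submatrix f id).det = (((Matrix.of fun k l => X k (f l).1 (f l).2 :
      Matrix (Fin r) (Fin r) ℤ).det : ℤ) : ℚ) := by
    rw [Int.cast_det, ← Matrix.det_transpose]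
    congr 1
  have hne : (Matrix.of fun k l => X k (f l).1 (f l).2 : Matrix (Fin r) (Fin r) ℤ).det ≠ 0 := by
    intro h0
    rw [hdetQ, h0] at hf
    exact hf (by simp)
  have h1 : 1 ≤ |(Y * Cf).det| := by
    rw [hdetZ, ← Int.cast_abs]
    exact_mod_cast Int.one_le_abs hne
  obtain ⟨J, hJ⟩ := exists_large_minor hK0.le Y Cf hCfb h1
  refine ⟨J, ?_⟩
  have hdetY : (Y.submatrix id J).det = Real.exp (∑ l, (x (J l).1 - y (J l).2)) *
      (Matrix.of fun k l => cj M (zr d (v k)) (J l).1 (J l).2 :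
            Matrix (Fin r) (Fin r) ℝ).det := by
    have h2 : Y.submatrix id J = Matrix.of fun k l => Real.exp (x (J l).1 - y (J l).2) *
        (Matrix.of fun k l => cj M (zr d (v k)) (J l).1 (J l).2 :
            Matrix (Fin r) (Fin r) ℝ) k l := by
      ext k l
      have h3 : Y.submatrix id J k l = Real.exp (x (J l).1) *
        cj M (zr d (v k)) (J l).1 (J l).2 * Real.exp (-y (J l).2) := rfl
      rw [h3, Matrix.of_apply, Matrix.of_apply, sub_eq_add_neg, Real.exp_add]
      ring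
    rw [h2, Matrix.det_mul_row, Real.exp_sum]
  rw [hdetY, abs_mul, abs_of_pos (Real.exp_pos _)] at hJ
  exact hJ

/-- the size of the conjugate of a transition -/
lemma cj_boundB {M : Matrix (Fin d) (Fin d) ℝ} (hM : M.det ≠ 0) {C1 : ℝ} (hC11 : 1 ≤ C1)
    (x y : Fin d → ℝ) (Vn Vm δ : Matrix (Fin d) (Fin d) ℤ)
    (hx : ∑ i, x i = 0) (hy : ∑ i, y i = 0) (hVn : IsUnit Vn.det) (hVm : IsUnit Vm.det)
    (hbn : ∀ i j, |mv M x Vn i j| ≤ C1) (hbm : ∀ i j, |mv M y Vm i j| ≤ C1) (hδ : Vn = δ * Vm)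
    (i j : Fin d) : |cj M (zr d δ) i j| ≤ (d * (C1 * (|M.det|⁻¹ * ((d.factorial : ℝ) * C1 ^ d))) + 1) *
      Real.exp (-x i + y j) := by
  classical
  have hMu : IsUnit M.det := isUnit_iff_ne_zero.2 hM
  set K : ℝ := d * (C1 * (|M.det|⁻¹ * ((d.factorial : ℝ) * C1 ^ d))) + 1 with hK
  have hM0 : 0 < |M.det| := abs_pos.2 hM
  have hzm : IsUnit (zr d Vm).det := by
    rw [zr_det]; exact hVm.map (Int.castRingHom ℝ)
  have h1 : Matrix.diagonal (fun i => Real.exp (x i)) * cj M (zr d δ) *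
      Matrix.diagonal (fun i => Real.exp (-y i)) = mv M x Vn * (mv M y Vm)⁻¹ := by
    have hDy : (Matrix.diagonal (fun i => Real.exp (y i)) : Matrix (Fin d) (Fin d) ℝ)⁻¹ =
        Matrix.diagonal (fun i => Real.exp (-y i)) := Matrix.inv_eq_right_inv (diag_exp_mul' y)
    unfold mv cj
    rw [Matrix.mul_inv_rev, Matrix.mul_inv_rev, hDy, hδ, map_mul]
    calc Matrix.diagonal (fun i => Real.exp (x i)) * (M * zr d δ * M⁻¹) *
          Matrix.diagonal (fun i => Real.exp (-y i))
        = Matrix.diagonal (fun i => Real.exp (x i)) * M * zr d δ * 1 * M⁻¹ *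
          Matrix.diagonal (fun i => Real.exp (-y i)) := by
          rw [Matrix.mul_one]; simp only [Matrix.mul_assoc]
      _ = Matrix.diagonal (fun i => Real.exp (x i)) * M * zr d δ * (zr d Vm * (zr d Vm)⁻¹) * M⁻¹ *
          Matrix.diagonal (fun i => Real.exp (-y i)) := by rw [Matrix.mul_nonsing_inv _ hzm]
      _ = _ := by simp only [Matrix.mul_assoc]
  have h2 := congrFun (congrFun h1 i) j
  rw [Matrix.mul_diagonal, Matrix.diagonal_mul, Matrix.mul_apply] at h2
  have h3 : |∑ k, mv M x Vn i k * (mv M y Vm)⁻¹ k j| ≤ K := by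
    refine (Finset.abs_sum_le_sum_abs _ _).trans ?_
    have h4 : ∀ k ∈ (Finset.univ : Finset (Fin d)), |mv M x Vn i k * (mv M y Vm)⁻¹ k j| ≤
        C1 * (|M.det|⁻¹ * ((d.factorial : ℝ) * C1 ^ d)) := by
      intro k _
      rw [abs_mul]
      have h5 := inv_bound (A := mv M y Vm) (C := C1)
        (fun i j => hbm i j) hC11 k j
      rw [mv_det M hy hVm] at h5
      exact mul_le_mul (hbn i k) h5 (abs_nonneg _) (by positivity)
    refine (Finset.sum_le_sum h4).trans ?_
    rw [Finset.sum_const, Finset.card_univ, Fintype.card_fin, nsmul_eq_mul]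
    linarith
  rw [← h2] at h3
  have h6 : |Real.exp (x i) * cj M (zr d δ) i j * Real.exp (-y j)| =
      |cj M (zr d δ) i j| * Real.exp (x i - y j) := by
    rw [abs_mul, abs_mul, abs_of_pos (Real.exp_pos _), abs_of_pos (Real.exp_pos _),
      sub_eq_add_neg, Real.exp_add]
    ring
  rw [h6] at h3
  calc |cj M (zr d δ) i j| = |cj M (zr d δ) i j| * Real.exp (x i - y j) *
        Real.exp (-x i + y j) := by
        rw [mul_assoc, ← Real.exp_add, show x i - y j + (-x i + y j) = 0 by ring, Real.exp_zero,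
          mul_one]
    _ ≤ K * Real.exp (-x i + y j) := mul_le_mul_of_nonneg_right h3 (Real.exp_pos _).le


end Pool.Agent.H202.OB
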