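import Mathlib
import Pool.Agent.H202.OB.StepB

/-!
# The application of the subspace theorem, with small exponential losses
-/

set_option autoImplicit false

open Finset Matrix Filter Topology

namespace Pool.Agent.H202.OB

open Pool.Agent.H202.ST

variable {d r : ℕ}

/-- the returns -/
structure Reps (M : Matrix (Fin d) (Fin d) ℝ) (α : Fin d → ℝ) (I : Finset (Fin d)) (C κ : ℝ) (C₀ : ℕ)
    (m n : ℕ → ℕ) (L : ℕ → ℝ) (Vx Vy δ : ℕ → Matrix (Fin d) (Fin d) ℤ) : Prop where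
  sum : ∑ i, α i = 0
  one_le : 1 ≤ C
  kap : 0 ≤ κ
  unitx : ∀ t, IsUnit (Vx t).det
  unity : ∀ t, IsUnit (Vy t).det
  boundx : ∀ t i j, |mv M (fun i => (m t : ℝ) * α i) (Vx t) i j| ≤ C * Real.exp (κ * L t)
  boundy : ∀ t i j, |mv M (fun i => (n t : ℝ) * α i) (Vy t) i j| ≤ C * Real.exp (κ * L t)
  le : ∀ t, m t ≤ n t
  nonneg : ∀ t, 0 ≤ L t
  lin : ∀ t, (n t : ℝ) ≤ C₀ * L t
  tend : Tendsto L atTop atTop
  rel : ∀ t, Vy t = δ t * Vx t
  gain : ∀ t, ∀ i ∈ I, ∀ j, j ∉ I → |cj M (zr d (δ t)) i j| ≤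
    C * Real.exp (-(n t : ℝ) * α i + (m t : ℝ) * α j - L t)

lemma exp_one_le {κ L C : ℝ} (hC : 1 ≤ C) (hκ : 0 ≤ κ) (hL : 0 ≤ L) : 1 ≤ C * Real.exp (κ * L) := by
  have h1 : 1 ≤ Real.exp (κ * L) := Real.one_le_exp (mul_nonneg hκ hL)
  nlinarith

/-- the constant for the sizes -/
noncomputable def K0 (M : Matrix (Fin d) (Fin d) ℝ) (C : ℝ) : ℝ :=
  d * (C * (|M.det|⁻¹ * ((d.factorial : ℝ) * C ^ d))) + 1 + C

lemma K0_pos {M : Matrix (Fin d) (Fin d) ℝ} {C : ℝ} (hC : 1 ≤ C) : 0 < K0 M C := by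
  unfold K0
  positivity

lemma Reps.size {M : Matrix (Fin d) (Fin d) ℝ} (hM : M.det ≠ 0) {α : Fin d → ℝ} {I : Finset (Fin d)}
    {C κ : ℝ} {C₀ : ℕ} {m n : ℕ → ℕ} {L : ℕ → ℝ} {Vx Vy δ : ℕ → Matrix (Fin d) (Fin d) ℤ}
    (hR : Reps M α I C κ C₀ m n L Vx Vy δ) (t : ℕ) (i j : Fin d) :
    |cj M (zr d (δ t)) i j| ≤ K0 M C * Real.exp ((d + 1) * κ * L t) *
      Real.exp (-(n t : ℝ) * α i + (m t : ℝ) * α j) := by
  have hsumα : ∀ a : ℕ, ∑ i, (a : ℝ) * α i = 0 := fun a => by rw [← Finset.mul_sum, hR.sum, mul_zero]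
  have h1 := cj_boundB hM (exp_one_le hR.one_le hR.kap (hR.nonneg t)) _ _ _ _ _ (hsumα _)
    (hsumα _) (hR.unity t) (hR.unitx t) (hR.boundy t) (hR.boundx t) (hR.rel t) i j
  refine h1.trans ?_
  rw [← neg_mul]
  refine mul_le_mul_of_nonneg_right ?_ (Real.exp_pos _).le
  have hM0 : 0 < |M.det| := abs_pos.2 hM
  have hE : 1 ≤ Real.exp (κ * L t) := Real.one_le_exp (mul_nonneg hR.kap (hR.nonneg t))
  have hE2 : Real.exp ((d + 1) * κ * L t) = Real.exp (κ * L t) ^ (d + 1) := by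
    rw [← Real.exp_nat_mul]
    congr 1
    push_cast
    ring
  rw [hE2]
  have hC := hR.one_le
  set E := Real.exp (κ * L t)
  have hEd : 1 ≤ E ^ (d + 1) := one_le_pow₀ hE
  have h2 : (C * E) ^ d = C ^ d * E ^ d := mul_pow _ _ _
  unfold K0
  rw [h2]
  have h3 : (d : ℝ) * (C * E * (|M.det|⁻¹ * ((d.factorial : ℝ) * (C ^ d * E ^ d)))) =
      (d * (C * (|M.det|⁻¹ * ((d.factorial : ℝ) * C ^ d)))) * E ^ (d + 1) := by
    rw [pow_succ]
    ring
  rw [h3]
  nlinarith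

lemma Reps.comp {M : Matrix (Fin d) (Fin d) ℝ} {α : Fin d → ℝ} {I : Finset (Fin d)}
    {C κ : ℝ} {C₀ : ℕ} {m n : ℕ → ℕ} {L : ℕ → ℝ} {Vx Vy δ : ℕ → Matrix (Fin d) (Fin d) ℤ}
    (hR : Reps M α I C κ C₀ m n L Vx Vy δ) {φ : ℕ → ℕ} (hφ : Tendsto φ atTop atTop) :
    Reps M α I C κ C₀ (m ∘ φ) (n ∘ φ) (L ∘ φ) (Vx ∘ φ) (Vy ∘ φ) (δ ∘ φ) where
  sum := hR.sum
  one_le := hR.one_le
  kap := hR.kap
  unitx := fun _ => hR.unitx _
  unity := fun _ => hR.unity _
  boundx := fun _ => hR.boundx _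
  boundy := fun _ => hR.boundy _
  le := fun _ => hR.le _
  nonneg := fun _ => hR.nonneg _
  lin := fun _ => hR.lin _
  tend := hR.tend.comp hφ
  rel := fun _ => hR.rel _
  gain := fun _ => hR.gain _

theorem contra {M : Matrix (Fin d) (Fin d) ℝ} (hM : M.det ≠ 0)
    (halg : ∀ i j, IsAlgebraic ℚ (M i j)) {α : Fin d → ℝ} {I : Finset (Fin d)}
    {C κ : ℝ} {C₀ : ℕ} {m n : ℕ → ℕ} {L : ℕ → ℝ} {Vx Vy δ : ℕ → Matrix (Fin d) (Fin d) ℤ}
    (hR : Reps M α I C κ C₀ m n L Vx Vy δ)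
    (v : Fin r → Matrix (Fin d) (Fin d) ℤ) (z : ℕ → Fin r → ℤ) (D : ℕ) (hD : 0 < D)
    (hz : ∀ s, ∑ k, z s k • v k = (D : ℤ) • δ s) (hz0 : ∀ s, z s ≠ 0)
    (J : Fin r → Fin d × Fin d)
    (hJ : (Matrix.of fun k l => cj M (zr d (v k)) (J l).1 (J l).2 :
            Matrix (Fin r) (Fin r) ℝ).det ≠ 0)
    (l₀ : Fin r) (hl₀ : (J l₀).1 ∈ I) (hl₀' : (J l₀).2 ∉ I) (C' κ₂ : ℝ)
    (hκ : r * ((d + 1) * κ) + κ₂ ≤ 1 / 4)
    (hsum : ∀ s, ∑ l, (-(n s : ℝ) * α (J l).1 + (m s : ℝ) * α (J l).2) ≤ C' + κ₂ * L s) :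
    ∃ y : Fin r → ℤ, y ≠ 0 ∧ ∃ᶠ s in atTop, ∑ l, y l * z s l = 0 := by
  classical
  set K := K0 M C with hKdef
  have hK : 0 < K := K0_pos hR.one_le
  have hκ0 := hR.kap
  have hr : 1 ≤ r := by
    have := l₀.isLt
    omega
  set ex : ℕ → Fin r → ℝ := fun s l => -(n s : ℝ) * α (J l).1 + (m s : ℝ) * α (J l).2 with hex
  set lA : ℕ → Fin r → ℝ := fun s l => Real.log (D * K) + (d + 1) * κ * L s +
    (ex s l - if l = l₀ then L s else 0) with hlA
  have hDK : 0 < (D : ℝ) * K := by positivity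
  set a : ℝ := ∑ i, |α i| with ha
  have haα : ∀ i, |α i| ≤ a := fun i =>
    Finset.single_le_sum (f := fun i => |α i|) (fun _ _ => abs_nonneg _) (Finset.mem_univ i)
  have ha0 : 0 ≤ a := Finset.sum_nonneg fun _ _ => abs_nonneg _
  have hLR : Tendsto L atTop atTop := hR.tend
  have hL1 : ∀ᶠ s in atTop, (1 : ℝ) ≤ L s := hLR.eventually_ge_atTop 1
  have hL2 : ∀ᶠ s in atTop, (r : ℝ) * Real.log (D * K) + C' ≤ 1 / 4 * L s :=
    (hLR.const_mul_atTop (by positivity)).eventually_ge_atTop _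
  have hnle : ∀ s, (n s : ℝ) ≤ C₀ * L s := hR.lin
  have hmle : ∀ s, (m s : ℝ) ≤ C₀ * L s := fun s =>
    le_trans (by exact_mod_cast hR.le s) (hnle s)
  have hexb : ∀ s l, |ex s l| ≤ 2 * C₀ * a * L s := by
    intro s l
    rw [hex]
    simp only
    refine (abs_add_le _ _).trans ?_
    rw [abs_mul, abs_mul, abs_neg, Nat.abs_cast, Nat.abs_cast]
    have h0 := hR.nonneg s
    have h1 := mul_le_mul (hnle s) (haα (J l).1) (abs_nonneg _) (by positivity)
    have h2 := mul_le_mul (hmle s) (haα (J l).2) (abs_nonneg _) (by positivity)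
    linarith
  refine sub_alg hr (Matrix.of fun k l => cj M (zr d (v k)) (J l).1 (J l).2 :
            Matrix (Fin r) (Fin r) ℝ)ᵀ (fun l k => ?_) (by rw [Matrix.det_transpose]; exact hJ)
    (|Real.log (D * K)| + (d + 1) * κ + 2 * C₀ * a + 1) (1 / 2) (by positivity) (by norm_num)
    (fun s => L s) hLR (fun s l => Real.exp (lA s l)) z ?_ ?_ ?_ ?_ ?_
  · rw [Matrix.transpose_apply, Matrix.of_apply]
    exact alg_cj hM halg _ _ _
  · exact Eventually.of_forall fun s l => Real.exp_pos _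
  · filter_upwards [hL1] with s hs l
    rw [Real.log_exp, hlA]
    simp only
    have h0 := hR.nonneg s
    refine (abs_add_le _ _).trans ?_
    have h1 : |ex s l - if l = l₀ then L s else 0| ≤ 2 * C₀ * a * L s + L s := by
      refine (abs_sub _ _).trans (add_le_add (hexb s l) ?_)
      split_ifs
      · rw [abs_of_nonneg h0]
      · rw [abs_zero]; exact h0
    have h2 : |Real.log (D * K)| ≤ |Real.log (D * K)| * L s :=
      le_mul_of_one_le_right (abs_nonneg _) hs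
    have h3 : |Real.log (D * K) + (d + 1) * κ * L s| ≤ |Real.log (D * K)| + (d + 1) * κ * L s := by
      refine (abs_add_le _ _).trans ?_
      rw [abs_of_nonneg (by positivity : 0 ≤ ((d : ℝ) + 1) * κ * L s)]
    linarith
  · filter_upwards [hL2] with s hs
    have h1 : ∑ l, Real.log (Real.exp (lA s l)) = r * Real.log (D * K) +
        r * ((d + 1) * κ) * L s + ∑ l, ex s l - L s := by
      simp only [Real.log_exp, hlA]
      rw [Finset.sum_add_distrib, Finset.sum_sub_distrib, Finset.sum_const, Finset.card_univ,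
        Fintype.card_fin, nsmul_eq_mul, Finset.sum_ite_eq' Finset.univ l₀,
        if_pos (Finset.mem_univ _)]
      ring
    rw [h1]
    have h2 := hsum s
    have h3 : ∑ l, ex s l ≤ C' + κ₂ * L s := h2
    have h0 := hR.nonneg s
    have h4 := mul_le_mul_of_nonneg_right hκ h0
    nlinarith
  · exact Eventually.of_forall hz0
  · refine Eventually.of_forall fun s l => ?_
    simp only [Matrix.transpose_apply, Matrix.of_apply]
    rw [cj_sum (hz s), abs_mul]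
    have hcast : |(((D : ℕ) : ℤ) : ℝ)| = D := by
      rw [Int.cast_natCast, abs_of_nonneg (Nat.cast_nonneg _)]
    rw [hcast]
    have hexp : Real.exp (lA s l) = D * (K * Real.exp ((d + 1) * κ * L s) *
        Real.exp (ex s l - if l = l₀ then L s else 0)) := by
      rw [hlA]
      simp only
      rw [Real.exp_add, Real.exp_add, Real.exp_log hDK]
      ring
    rw [hexp]
    refine mul_le_mul_of_nonneg_left ?_ (Nat.cast_nonneg _)
    split_ifs with h
    · subst h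
      have h1 := hR.gain s _ hl₀ _ hl₀'
      refine h1.trans ?_
      refine mul_le_mul_of_nonneg_right ?_ (Real.exp_pos _).le
      have h2 : 1 ≤ Real.exp ((d + 1) * κ * L s) := Real.one_le_exp (by
        have := hR.nonneg s
        positivity)
      have h3 : C ≤ K := by
        rw [hKdef]
        unfold K0
        have h4 := hR.one_le
        have : 0 ≤ (d : ℝ) * (C * (|M.det|⁻¹ * ((d.factorial : ℝ) * C ^ d))) := by positivity
        linarith
      nlinarith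
    · refine (hR.size hM s _ _).trans (le_of_eq ?_)
      rw [sub_zero]

end Pool.Agent.H202.OB
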