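import Mathlib
import Pool.Agent.H202.OB.Core

/-!
# Near returns of points which are close to a ray
-/

set_option autoImplicit false

open Finset Matrix Filter Topology

namespace Pool.Agent.H202.OB

open Pool.Agent.H202.ST (mv zr zq cj zq_apply zr_apply zr_det diag_exp_mul diag_exp_mul')

variable {d : ℕ}

/-- the sum of the absolute values of the entries -/
noncomputable def sumAbs (A : Matrix (Fin d) (Fin d) ℝ) : ℝ := ∑ i, ∑ k, |A i k|

lemma sumAbs_nonneg (A : Matrix (Fin d) (Fin d) ℝ) : 0 ≤ sumAbs A :=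
  Finset.sum_nonneg fun _ _ => Finset.sum_nonneg fun _ _ => abs_nonneg _

lemma row_le (A : Matrix (Fin d) (Fin d) ℝ) (i : Fin d) : ∑ k, |A i k| ≤ sumAbs A :=
  Finset.single_le_sum (f := fun i => ∑ k, |A i k|)
    (fun _ _ => Finset.sum_nonneg fun _ _ => abs_nonneg _) (Finset.mem_univ i)

lemma entry_le (A : Matrix (Fin d) (Fin d) ℝ) (i j : Fin d) : |A i j| ≤ sumAbs A :=
  (Finset.single_le_sum (f := fun k => |A i k|) (fun _ _ => abs_nonneg _)
    (Finset.mem_univ j)).trans (row_le A i)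

lemma bound_T {h M : Matrix (Fin d) (Fin d) ℝ} (hu : IsUnit h.det) {I : Finset (Fin d)}
    (hT : ∀ i ∈ I, ∀ j, j ∉ I → (M * h⁻¹) i j = 0) {α : Fin d → ℝ}
    (hmax : ∀ i ∈ I, ∀ i', α i' ≤ α i) (hlow : ∀ j, j ∉ I → ∀ i, α j ≤ α i) {R ρ : ℝ} (hR : 0 ≤ R) {s : Fin d → ℝ}
    (hs : ∀ j, |s j| ≤ ρ) {V : Matrix (Fin d) (Fin d) ℤ} {n : ℕ}
    (hb : ∀ i j, |(Matrix.diagonal (fun i => Real.exp ((n : ℝ) * α i + s i)) * h * zr d V) i j| ≤ R)
    (i j : Fin d) : |mv M (fun i => (n : ℝ) * α i) V i j| ≤ sumAbs (M * h⁻¹) * R * Real.exp ρ := by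
  have hMT : M = (M * h⁻¹) * h := by
    rw [Matrix.mul_assoc, Matrix.nonsing_inv_mul _ hu, Matrix.mul_one]
  have h1 : mv M (fun i => (n : ℝ) * α i) V i j =
      ∑ k, (M * h⁻¹) i k * Real.exp ((n : ℝ) * (α i - α k) - s k) *
        (Matrix.diagonal (fun i => Real.exp ((n : ℝ) * α i + s i)) * h * zr d V) k j := by
    have e0 : mv M (fun i => (n : ℝ) * α i) V i j = Real.exp ((n : ℝ) * α i) * (M * zr d V) i j := by
      unfold mv
      rw [Matrix.mul_assoc, Matrix.diagonal_mul]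
    have e1 : ∀ k, (Matrix.diagonal (fun i => Real.exp ((n : ℝ) * α i + s i)) * h * zr d V) k j =
        Real.exp ((n : ℝ) * α k + s k) * (h * zr d V) k j := by
      intro k
      rw [Matrix.mul_assoc, Matrix.diagonal_mul]
    rw [e0]
    conv_lhs => rw [hMT, Matrix.mul_assoc, Matrix.mul_apply, Finset.mul_sum]
    refine Finset.sum_congr rfl fun k _ => ?_
    rw [e1, show (n : ℝ) * α i = ((n : ℝ) * (α i - α k) - s k) + ((n : ℝ) * α k + s k) by ring,
      Real.exp_add]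
    ring
  rw [h1]
  refine (Finset.abs_sum_le_sum_abs _ _).trans ?_
  have h2 : ∀ k ∈ (Finset.univ : Finset (Fin d)), |(M * h⁻¹) i k *
      Real.exp ((n : ℝ) * (α i - α k) - s k) *
      (Matrix.diagonal (fun i => Real.exp ((n : ℝ) * α i + s i)) * h * zr d V) k j| ≤
      |(M * h⁻¹) i k| * (R * Real.exp ρ) := by
    intro k _
    by_cases hk : i ∈ I ∧ k ∉ I
    · rw [hT i hk.1 k hk.2]
      simp
    · have hle : α i ≤ α k := by
        by_cases hi : i ∈ I
        · have : k ∈ I := by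
            by_contra h0
            exact hk ⟨hi, h0⟩
          exact hmax k this i
        · exact hlow i hi k
      rw [abs_mul, abs_mul, abs_of_pos (Real.exp_pos _), mul_assoc]
      refine mul_le_mul_of_nonneg_left ?_ (abs_nonneg _)
      have h3 : Real.exp ((n : ℝ) * (α i - α k) - s k) ≤ Real.exp ρ := by
        apply Real.exp_le_exp.2
        have h4 := (abs_le.1 (hs k)).1
        have h5 : (n : ℝ) * (α i - α k) ≤ 0 :=
          mul_nonpos_of_nonneg_of_nonpos (Nat.cast_nonneg _) (by linarith)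
        linarith
      rw [mul_comm R]
      exact mul_le_mul h3 (hb k j) (abs_nonneg _) (Real.exp_pos _).le
  refine (Finset.sum_le_sum h2).trans ?_
  rw [← Finset.sum_mul, mul_assoc]
  exact mul_le_mul_of_nonneg_right (row_le _ i) (mul_nonneg hR (Real.exp_pos _).le)

/-- the conjugate of the inverse of the integral matrix of a near return -/
lemma cj_close {h : Matrix (Fin d) (Fin d) ℝ} (hu : IsUnit h.det) {x y b : Fin d → ℝ}
    {E : Matrix (Fin d) (Fin d) ℝ} {γ : Matrix (Fin d) (Fin d) ℤ} (hγ : IsUnit γ.det)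
    (hcl : Matrix.diagonal (fun i => Real.exp (x i)) * h = Matrix.diagonal b * (1 + E) *
      (Matrix.diagonal (fun i => Real.exp (y i)) * h) * zr d γ) :
    cj h (zr d γ⁻¹) = Matrix.diagonal (fun i => Real.exp (-x i)) * Matrix.diagonal b * (1 + E) *
      Matrix.diagonal (fun i => Real.exp (y i)) := by
  have e1 : zr d γ * zr d γ⁻¹ = 1 := by
    rw [← map_mul, Matrix.mul_nonsing_inv _ hγ, map_one]
  unfold cj
  calc h * zr d γ⁻¹ * h⁻¹
      = (Matrix.diagonal (fun i => Real.exp (-x i)) * Matrix.diagonal (fun i => Real.exp (x i))) *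
        h * zr d γ⁻¹ * h⁻¹ := by rw [diag_exp_mul, Matrix.one_mul]
    _ = Matrix.diagonal (fun i => Real.exp (-x i)) *
        (Matrix.diagonal (fun i => Real.exp (x i)) * h) * zr d γ⁻¹ * h⁻¹ := by
        simp only [Matrix.mul_assoc]
    _ = Matrix.diagonal (fun i => Real.exp (-x i)) * Matrix.diagonal b * (1 + E) *
        Matrix.diagonal (fun i => Real.exp (y i)) * (h * (zr d γ * zr d γ⁻¹) * h⁻¹) := by
        rw [hcl]
        simp only [Matrix.mul_assoc]
    _ = _ := by rw [e1, Matrix.mul_one, Matrix.mul_nonsing_inv _ hu, Matrix.mul_one]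

lemma cj_close_apply {h : Matrix (Fin d) (Fin d) ℝ} (hu : IsUnit h.det) {x y b : Fin d → ℝ}
    {E : Matrix (Fin d) (Fin d) ℝ} {γ : Matrix (Fin d) (Fin d) ℤ} (hγ : IsUnit γ.det)
    (hcl : Matrix.diagonal (fun i => Real.exp (x i)) * h = Matrix.diagonal b * (1 + E) *
      (Matrix.diagonal (fun i => Real.exp (y i)) * h) * zr d γ) (i j : Fin d) :
    cj h (zr d γ⁻¹) i j = Real.exp (-x i + y j) * b i * (1 + E) i j := by
  rw [cj_close hu hγ hcl, Matrix.mul_diagonal, Matrix.diagonal_mul_diagonal, Matrix.diagonal_mul,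
    Real.exp_add]
  ring

/-- the gain -/
lemma gain {h M : Matrix (Fin d) (Fin d) ℝ} (hu : IsUnit h.det) {I : Finset (Fin d)}
    (hT : ∀ i ∈ I, ∀ j, j ∉ I → (M * h⁻¹) i j = 0) (hT' : ∀ i ∈ I, ∀ j, j ∉ I → (h * M⁻¹) i j = 0)
    {α : Fin d → ℝ} (hmax : ∀ i ∈ I, ∀ i', α i' ≤ α i) (hlow : ∀ j, j ∉ I → ∀ i, α j ≤ α i) {ρ : ℝ} {s s' : Fin d → ℝ}
    (hs : ∀ j, |s j| ≤ ρ) (hs' : ∀ j, |s' j| ≤ ρ) {m n : ℕ} {b : Fin d → ℝ} {K ε : ℝ}
    (hK : 0 ≤ K) (hε : 0 ≤ ε)
    {E : Matrix (Fin d) (Fin d) ℝ} {γ : Matrix (Fin d) (Fin d) ℤ} (hγ : IsUnit γ.det)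
    (hb : ∀ i, 0 ≤ b i ∧ b i ≤ K) (hE : ∀ i j, |E i j| ≤ ε)
    (hcl : Matrix.diagonal (fun i => Real.exp ((n : ℝ) * α i + s' i)) * h =
      Matrix.diagonal b * (1 + E) *
      (Matrix.diagonal (fun i => Real.exp ((m : ℝ) * α i + s i)) * h) * zr d γ) (i : Fin d)
    (hi : i ∈ I) (j : Fin d) (hj : j ∉ I) :
    |cj M (zr d γ⁻¹) i j| ≤ sumAbs (M * h⁻¹) * sumAbs (h * M⁻¹) * K * ε *
      Real.exp (-(n : ℝ) * α i + (m : ℝ) * α j + 2 * ρ) := by
  have h1 : cj M (zr d γ⁻¹) = (M * h⁻¹) * cj h (zr d γ⁻¹) * (h * M⁻¹) := by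
    unfold cj
    have e1 : h⁻¹ * h = 1 := Matrix.nonsing_inv_mul _ hu
    calc M * zr d γ⁻¹ * M⁻¹ = M * (h⁻¹ * h) * zr d γ⁻¹ * (h⁻¹ * h) * M⁻¹ := by
          rw [e1, Matrix.mul_one, Matrix.mul_one]
      _ = _ := by simp only [Matrix.mul_assoc]
  set B : ℝ := K * ε * Real.exp (-(n : ℝ) * α i + (m : ℝ) * α j + 2 * ρ) with hB
  have hB0 : 0 ≤ B := mul_nonneg (mul_nonneg hK hε) (Real.exp_pos _).le
  -- the entries
  have hX : ∀ k ∈ I, ∀ l, l ∉ I → |cj h (zr d γ⁻¹) k l| ≤ B := by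
    intro k hk l hl
    have hkl : k ≠ l := fun h0 => hl (h0 ▸ hk)
    rw [cj_close_apply hu hγ hcl]
    have e1 : (1 + E) k l = E k l := by
      rw [Matrix.add_apply, one_apply_ne hkl, zero_add]
    rw [e1, abs_mul, abs_mul, abs_of_pos (Real.exp_pos _), abs_of_nonneg (hb k).1]
    have e2 : Real.exp (-((n : ℝ) * α k + s' k) + ((m : ℝ) * α l + s l)) ≤
        Real.exp (-(n : ℝ) * α i + (m : ℝ) * α j + 2 * ρ) := by
      apply Real.exp_le_exp.2
      have h4 := (abs_le.1 (hs l)).2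
      have h5 := (abs_le.1 (hs' k)).1
      have h6 : α l ≤ α j := hlow l hl j
      have h7 := mul_le_mul_of_nonneg_left h6 (Nat.cast_nonneg (α := ℝ) m)
      have h8 : α i ≤ α k := hmax k hk i
      have h9 := mul_le_mul_of_nonneg_left h8 (Nat.cast_nonneg (α := ℝ) n)
      linarith
    calc Real.exp (-((n : ℝ) * α k + s' k) + ((m : ℝ) * α l + s l)) * b k * |E k l|
        ≤ Real.exp (-(n : ℝ) * α i + (m : ℝ) * α j + 2 * ρ) * K * ε := by
          refine mul_le_mul (mul_le_mul e2 (hb k).2 (hb k).1 (Real.exp_pos _).le) (hE _ _)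
            (abs_nonneg _) (by positivity)
      _ = _ := by rw [hB]; ring
  have h2 : ∀ l, l ∉ I → |((M * h⁻¹) * cj h (zr d γ⁻¹)) i l| ≤ sumAbs (M * h⁻¹) * B := by
    intro l hl
    rw [Matrix.mul_apply]
    refine (Finset.abs_sum_le_sum_abs _ _).trans ?_
    have h3 : ∀ k ∈ (Finset.univ : Finset (Fin d)), |(M * h⁻¹) i k * cj h (zr d γ⁻¹) k l| ≤
        |(M * h⁻¹) i k| * B := by
      intro k _
      by_cases hk : k ∈ I
      · rw [abs_mul]
        exact mul_le_mul_of_nonneg_left (hX k hk l hl) (abs_nonneg _)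
      · rw [hT i hi k hk]
        simp
    refine (Finset.sum_le_sum h3).trans ?_
    rw [← Finset.sum_mul]
    exact mul_le_mul_of_nonneg_right (row_le _ i) hB0
  rw [h1, Matrix.mul_apply]
  refine (Finset.abs_sum_le_sum_abs _ _).trans ?_
  have h3 : ∀ l ∈ (Finset.univ : Finset (Fin d)),
      |((M * h⁻¹) * cj h (zr d γ⁻¹)) i l * (h * M⁻¹) l j| ≤
      |(h * M⁻¹) l j| * (sumAbs (M * h⁻¹) * B) := by
    intro l _
    by_cases hl : l ∈ I
    · rw [hT' l hl j hj, mul_zero, abs_zero, zero_mul]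
    · rw [abs_mul, mul_comm]
      exact mul_le_mul_of_nonneg_left (h2 l hl) (abs_nonneg _)
  refine (Finset.sum_le_sum h3).trans ?_
  rw [← Finset.sum_mul]
  have h4 : ∑ l, |(h * M⁻¹) l j| ≤ sumAbs (h * M⁻¹) := by
    unfold sumAbs
    exact Finset.sum_le_sum fun l _ => Finset.single_le_sum (f := fun k => |(h * M⁻¹) l k|)
      (fun _ _ => abs_nonneg _) (Finset.mem_univ j)
  have h5 : 0 ≤ sumAbs (M * h⁻¹) * B := mul_nonneg (sumAbs_nonneg _) hB0
  calc _ ≤ sumAbs (h * M⁻¹) * (sumAbs (M * h⁻¹) * B) := mul_le_mul_of_nonneg_right h4 h5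
    _ = _ := by rw [hB]; ring

/-- the bound for the moved matrix -/
lemma bound_next {h : Matrix (Fin d) (Fin d) ℝ} {x y b : Fin d → ℝ} {K ε R : ℝ}
    (hK : 0 ≤ K) (hε : ε ≤ 1) (hR : 0 ≤ R)
    {E : Matrix (Fin d) (Fin d) ℝ} {γ V : Matrix (Fin d) (Fin d) ℤ} (hγ : IsUnit γ.det)
    (hb : ∀ i, 0 ≤ b i ∧ b i ≤ K) (hE : ∀ i j, |E i j| ≤ ε)
    (hcl : Matrix.diagonal (fun i => Real.exp (x i)) * h = Matrix.diagonal b * (1 + E) *
      (Matrix.diagonal (fun i => Real.exp (y i)) * h) * zr d γ)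
    (hV : ∀ i j, |(Matrix.diagonal (fun i => Real.exp (y i)) * h * zr d V) i j| ≤ R) (i j : Fin d) :
    |(Matrix.diagonal (fun i => Real.exp (x i)) * h * zr d (γ⁻¹ * V)) i j| ≤ K * (2 * d * R) := by
  have e1 : zr d γ * zr d γ⁻¹ = 1 := by
    rw [← map_mul, Matrix.mul_nonsing_inv _ hγ, map_one]
  have h1 : Matrix.diagonal (fun i => Real.exp (x i)) * h * zr d (γ⁻¹ * V) =
      Matrix.diagonal b * ((1 + E) * (Matrix.diagonal (fun i => Real.exp (y i)) * h * zr d V)) := by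
    rw [map_mul, hcl]
    calc Matrix.diagonal b * (1 + E) * (Matrix.diagonal (fun i => Real.exp (y i)) * h) * zr d γ *
          (zr d γ⁻¹ * zr d V)
        = Matrix.diagonal b * (1 + E) * (Matrix.diagonal (fun i => Real.exp (y i)) * h) *
          (zr d γ * zr d γ⁻¹) * zr d V := by simp only [Matrix.mul_assoc]
      _ = _ := by rw [e1, Matrix.mul_one]; simp only [Matrix.mul_assoc]
  rw [h1, Matrix.diagonal_mul, abs_mul, abs_of_nonneg (hb i).1]
  refine mul_le_mul (hb i).2 ?_ (abs_nonneg _) hK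
  rw [Matrix.mul_apply]
  refine (Finset.abs_sum_le_sum_abs _ _).trans ?_
  have h2 : ∀ k ∈ (Finset.univ : Finset (Fin d)), |(1 + E) i k *
      (Matrix.diagonal (fun i => Real.exp (y i)) * h * zr d V) k j| ≤ 2 * R := by
    intro k _
    rw [abs_mul]
    refine mul_le_mul ?_ (hV k j) (abs_nonneg _) (by norm_num)
    rw [Matrix.add_apply]
    refine (abs_add_le _ _).trans ?_
    have h3 : |(1 : Matrix (Fin d) (Fin d) ℝ) i k| ≤ 1 := by
      rw [Matrix.one_apply]
      split_ifs <;> norm_num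
    have h4 := (hE i k).trans hε
    linarith
  refine (Finset.sum_le_sum h2).trans (le_of_eq ?_)
  rw [Finset.sum_const, Finset.card_univ, Fintype.card_fin, nsmul_eq_mul]
  ring

/-- scalar returns are short -/
lemma short_of_scalar {h : Matrix (Fin d) (Fin d) ℝ} (hd : 0 < d) (hu : IsUnit h.det)
    {x y b : Fin d → ℝ}
    {K ε : ℝ} (hK : 1 ≤ K) (hε : ε ≤ 1 / 2) {E : Matrix (Fin d) (Fin d) ℝ}
    {γ : Matrix (Fin d) (Fin d) ℤ} (hγ : IsUnit γ.det)
    (hb : ∀ i, 1 / K ≤ b i ∧ b i ≤ K) (hE : ∀ i j, |E i j| ≤ ε)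
    (hcl : Matrix.diagonal (fun i => Real.exp (x i)) * h = Matrix.diagonal b * (1 + E) *
      (Matrix.diagonal (fun i => Real.exp (y i)) * h) * zr d γ)
    (hs : ∃ c : ℚ, zq d γ⁻¹ = c • (1 : Matrix (Fin d) (Fin d) ℚ)) (i : Fin d) :
    |x i - y i| ≤ Real.log (2 * K) := by
  obtain ⟨c, hc⟩ := hs
  have hinv : IsUnit (γ⁻¹ : Matrix (Fin d) (Fin d) ℤ).det := by
    rw [Matrix.det_nonsing_inv]
    exact hγ.ringInverse
  have hK0 : 0 < K := by linarith
  -- the absolute value of `c`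
  have hcabs : |(c : ℝ)| = 1 := by
    have h1 : (zq d γ⁻¹).det = c ^ d := by
      rw [hc, Matrix.det_smul, Fintype.card_fin, Matrix.det_one, mul_one]
    have h2 : (zq d γ⁻¹).det = ((γ⁻¹ : Matrix (Fin d) (Fin d) ℤ).det : ℚ) :=
      ((Int.castRingHom ℚ).map_det _).symm
    rw [h2] at h1
    have h3 : |c| ^ d = 1 := by
      rw [← abs_pow, ← h1]
      rcases Int.isUnit_iff.1 hinv with h | h <;> rw [h] <;> simp
    have h4 : |c| = 1 := (pow_eq_one_iff_of_nonneg (abs_nonneg _) hd.ne').1 h3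
    exact_mod_cast h4
  have h1 : cj h (zr d γ⁻¹) i i = c := by
    have e1 : zr d γ⁻¹ = (c : ℝ) • (1 : Matrix (Fin d) (Fin d) ℝ) := by
      ext k l
      have e2 := congrFun (congrFun hc k) l
      rw [zq_apply, Matrix.smul_apply, smul_eq_mul] at e2
      rw [zr_apply, Matrix.smul_apply, smul_eq_mul]
      rw [Matrix.one_apply] at e2 ⊢
      split_ifs at e2 ⊢ with hkl
      · rw [mul_one] at e2 ⊢
        exact_mod_cast e2
      · rw [mul_zero] at e2 ⊢
        exact_mod_cast e2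
    unfold cj
    rw [e1, Matrix.mul_smul, Matrix.mul_one, Matrix.smul_mul, Matrix.mul_nonsing_inv _ hu,
      Matrix.smul_apply, one_apply_eq, smul_eq_mul, mul_one]
  rw [cj_close_apply hu hγ hcl] at h1
  have hbi := hb i
  have hb0 : 0 < b i := lt_of_lt_of_le (by positivity) hbi.1
  have hE1 := (abs_le.1 ((hE i i).trans hε))
  have e3 : (1 + E) i i = 1 + E i i := by
    rw [Matrix.add_apply, one_apply_eq]
  rw [e3] at h1
  have hE0 : 0 < 1 + E i i := by linarith
  have h2 : Real.exp (-x i + y i) * (b i * (1 + E i i)) = 1 := by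
    have h8 : |Real.exp (-x i + y i) * b i * (1 + E i i)| =
        Real.exp (-x i + y i) * b i * (1 + E i i) := abs_of_pos (by positivity)
    rw [← mul_assoc, ← h8, h1, hcabs]
  have h3 : b i * (1 + E i i) ≤ 2 * K := by
    have := mul_le_mul hbi.2 (by linarith : 1 + E i i ≤ 2) hE0.le hK0.le
    linarith
  have h4 : 1 / (2 * K) ≤ b i * (1 + E i i) := by
    have := mul_le_mul hbi.1 (by linarith : 1 / 2 ≤ 1 + E i i) (by norm_num) hb0.le
    calc 1 / (2 * K) = 1 / K * (1 / 2) := by field_simp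
      _ ≤ _ := this
  have h5 : x i - y i = Real.log (b i * (1 + E i i)) := by
    have h6 : b i * (1 + E i i) = Real.exp (x i - y i) := by
      have h7 : Real.exp (x i - y i) * Real.exp (-x i + y i) = 1 := by
        rw [← Real.exp_add]
        simp
      calc b i * (1 + E i i) = (Real.exp (x i - y i) * Real.exp (-x i + y i)) *
            (b i * (1 + E i i)) := by rw [h7, one_mul]
        _ = Real.exp (x i - y i) * (Real.exp (-x i + y i) * (b i * (1 + E i i))) := by ring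
        _ = _ := by rw [h2, mul_one]
    rw [h6, Real.log_exp]
  rw [h5, abs_le]
  constructor
  · rw [← Real.log_inv]
    refine Real.log_le_log (by positivity) ?_
    rw [← one_div]
    exact h4
  · exact Real.log_le_log (by positivity) h3

end Pool.Agent.H202.OB
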