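import Mathlib
import Pool.Agent.H202.OB.Near

/-!
# Points close to a ray
-/

set_option autoImplicit false

open Finset Matrix Filter Topology

namespace Pool.Agent.H202.OB

variable {d : ℕ}

/-- the ray -/
noncomputable def al (I : Finset (Fin d)) (r : ℝ) : Fin d → ℝ := fun j =>
  if j ∈ I then ((d : ℝ) - I.card) * r else -(I.card * r)

lemma al_mem {I : Finset (Fin d)} {i : Fin d} (r : ℝ) (h : i ∈ I) :
    al I r i = ((d : ℝ) - I.card) * r := if_pos h

lemma al_not {I : Finset (Fin d)} {j : Fin d} (r : ℝ) (h : j ∉ I) : al I r j = -(I.card * r) :=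
  if_neg h

lemma card_le (I : Finset (Fin d)) : (I.card : ℝ) ≤ d := by
  have := Finset.card_le_univ I
  rw [Fintype.card_fin] at this
  exact_mod_cast this

lemma al_sum (I : Finset (Fin d)) (r : ℝ) : ∑ j, al I r j = 0 := by
  classical
  unfold al
  rw [Finset.sum_ite, Finset.sum_const, Finset.sum_const, Finset.filter_univ_mem,
    nsmul_eq_mul, nsmul_eq_mul]
  have h1 : (Finset.univ.filter fun j : Fin d => j ∉ I) = Iᶜ := by
    ext j
    simp
  rw [h1, Finset.card_compl, Fintype.card_fin, Nat.cast_sub (by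
    have := Finset.card_le_univ I
    rwa [Fintype.card_fin] at this)]
  ring

lemma al_max {I : Finset (Fin d)} {r : ℝ} (hr : 0 ≤ r) (i : Fin d) (hi : i ∈ I) (i' : Fin d) :
    al I r i' ≤ al I r i := by
  rw [al_mem r hi]
  by_cases h : i' ∈ I
  · rw [al_mem r h]
  · rw [al_not r h]
    have h1 := mul_nonneg (sub_nonneg.2 (card_le I)) hr
    have h2 : 0 ≤ (I.card : ℝ) * r := by positivity
    linarith

lemma al_low {I : Finset (Fin d)} {r : ℝ} (hr : 0 ≤ r) (j : Fin d) (hj : j ∉ I) (i : Fin d) :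
    al I r j ≤ al I r i := by
  rw [al_not r hj]
  by_cases h : i ∈ I
  · rw [al_mem r h]
    have h1 := mul_nonneg (sub_nonneg.2 (card_le I)) hr
    have h2 : 0 ≤ (I.card : ℝ) * r := by positivity
    linarith
  · rw [al_not r h]

/-- the transversal coordinates -/
noncomputable def tr (j₀ : Fin d) (u : Fin d → ℕ) : Fin d → ℝ := fun j =>
  if j = j₀ then -∑ k, (u k : ℝ) else (u j : ℝ)

lemma tr_sum {j₀ : Fin d} {u : Fin d → ℕ} (hu : u j₀ = 0) : ∑ j, tr j₀ u j = 0 := by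
  have h1 : ∑ k, (u k : ℝ) = ∑ k ∈ Finset.univ.erase j₀, (u k : ℝ) := by
    rw [← Finset.add_sum_erase _ (fun k => (u k : ℝ)) (Finset.mem_univ j₀), hu, Nat.cast_zero,
      zero_add]
  rw [← Finset.add_sum_erase _ _ (Finset.mem_univ j₀)]
  have h2 : tr j₀ u j₀ = -∑ k, (u k : ℝ) := if_pos rfl
  have h3 : ∑ x ∈ Finset.univ.erase j₀, tr j₀ u x = ∑ k ∈ Finset.univ.erase j₀, (u k : ℝ) :=
    Finset.sum_congr rfl fun j hj => by
      unfold tr
      rw [if_neg (Finset.ne_of_mem_erase hj)]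
  rw [h2, h1, h3]
  ring

lemma tr_abs {j₀ : Fin d} {u : Fin d → ℕ} {S : ℕ} (hu : ∀ j, u j ≤ S) (j : Fin d) :
    |tr j₀ u j| ≤ d * S := by
  have hd : (1 : ℝ) ≤ d := by
    have : 0 < d := j.pos
    exact_mod_cast this
  have hS : (0 : ℝ) ≤ S := Nat.cast_nonneg _
  unfold tr
  split_ifs
  · rw [abs_neg, abs_of_nonneg (Finset.sum_nonneg fun _ _ => Nat.cast_nonneg _)]
    have h1 : ∑ k, (u k : ℝ) ≤ ∑ _k : Fin d, (S : ℝ) :=
      Finset.sum_le_sum fun k _ => by exact_mod_cast hu k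
    rw [Finset.sum_const, Finset.card_univ, Fintype.card_fin, nsmul_eq_mul] at h1
    exact h1
  · rw [Nat.abs_cast]
    have h1 : (u j : ℝ) ≤ S := by exact_mod_cast hu j
    nlinarith

/-- the sample -/
noncomputable def pt (I : Finset (Fin d)) (j₀ : Fin d) (r : ℝ) (p : ℕ × (Fin d → ℕ)) :
    Fin d → ℝ := fun j => (p.1 : ℝ) * al I r j + r * tr j₀ p.2 j

/-- the indices of the sample -/
def idx (i₀ j₀ : Fin d) (T S : ℕ) : Finset (ℕ × (Fin d → ℕ)) :=
  Finset.range T ×ˢ Fintype.piFinset fun j => if j = i₀ ∨ j = j₀ then {0} else Finset.range S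

lemma idx_card {i₀ j₀ : Fin d} (hij : i₀ ≠ j₀) (T S : ℕ) :
    (idx i₀ j₀ T S).card = T * S ^ (d - 2) := by
  classical
  unfold idx
  rw [Finset.card_product, Finset.card_range, Fintype.card_piFinset]
  congr 1
  have h1 : ∀ j : Fin d, (if j = i₀ ∨ j = j₀ then ({0} : Finset ℕ) else Finset.range S).card =
      if j = i₀ ∨ j = j₀ then 1 else S := by
    intro j
    split_ifs <;> simp
  simp only [h1]
  rw [Finset.prod_ite, Finset.prod_const_one, one_mul, Finset.prod_const]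
  congr 1
  have h2 : (Finset.univ.filter fun j : Fin d => ¬ (j = i₀ ∨ j = j₀)) =
      (Finset.univ.erase i₀).erase j₀ := by
    ext j
    simp only [Finset.mem_filter, Finset.mem_univ, true_and, Finset.mem_erase, and_true]
    tauto
  rw [h2, Finset.card_erase_of_mem, Finset.card_erase_of_mem (Finset.mem_univ i₀),
    Finset.card_univ, Fintype.card_fin]
  · omega
  · rw [Finset.mem_erase]
    exact ⟨hij.symm, Finset.mem_univ _⟩

lemma mem_idx {i₀ j₀ : Fin d} {T S : ℕ} {p : ℕ × (Fin d → ℕ)} (hp : p ∈ idx i₀ j₀ T S) :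
    p.1 < T ∧ p.2 i₀ = 0 ∧ p.2 j₀ = 0 ∧ ∀ j, p.2 j ≤ S := by
  unfold idx at hp
  rw [Finset.mem_product, Finset.mem_range, Fintype.mem_piFinset] at hp
  refine ⟨hp.1, ?_, ?_, fun j => ?_⟩
  · have := hp.2 i₀
    rw [if_pos (Or.inl rfl), Finset.mem_singleton] at this
    exact this
  · have := hp.2 j₀
    rw [if_pos (Or.inr rfl), Finset.mem_singleton] at this
    exact this
  · have := hp.2 j
    split_ifs at this
    · rw [Finset.mem_singleton] at this
      omega
    · exact (Finset.mem_range.1 this).le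

lemma pt_sum {I : Finset (Fin d)} {j₀ : Fin d} (r : ℝ) {p : ℕ × (Fin d → ℕ)} (hp : p.2 j₀ = 0) :
    ∑ j, pt I j₀ r p j = 0 := by
  unfold pt
  rw [Finset.sum_add_distrib, ← Finset.mul_sum, ← Finset.mul_sum, al_sum, tr_sum hp]
  ring

lemma pt_sep {I : Finset (Fin d)} (hI : I ≠ Finset.univ) {i₀ j₀ : Fin d} (hi₀ : i₀ ∈ I)
    (hij : i₀ ≠ j₀) {r : ℝ} (hr : 0 ≤ r) {T S : ℕ}
    {p q : ℕ × (Fin d → ℕ)} (hp : p ∈ idx i₀ j₀ T S) (hq : q ∈ idx i₀ j₀ T S) (hpq : p ≠ q) :
    ∃ i, r ≤ |pt I j₀ r p i - pt I j₀ r q i| := by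
  obtain ⟨-, hp1, hp2, -⟩ := mem_idx hp
  obtain ⟨-, hq1, hq2, -⟩ := mem_idx hq
  have hnat : ∀ a b : ℕ, a ≠ b → (1 : ℝ) ≤ |(a : ℝ) - b| := by
    intro a b hab
    have h1 : (1 : ℤ) ≤ |(a : ℤ) - b| := Int.one_le_abs (by omega)
    have h2 : ((1 : ℤ) : ℝ) ≤ ((|(a : ℤ) - b| : ℤ) : ℝ) := by exact_mod_cast h1
    rw [Int.cast_abs] at h2
    push_cast at h2
    exact h2
  by_cases h : p.1 = q.1
  · have h2 : p.2 ≠ q.2 := fun h0 => hpq (Prod.ext h h0)
    obtain ⟨j, hj⟩ := Function.ne_iff.1 h2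
    refine ⟨j, ?_⟩
    have hj0 : j ≠ j₀ := by
      rintro rfl
      exact hj (hp2.trans hq2.symm)
    have h3 : pt I j₀ r p j - pt I j₀ r q j = r * ((p.2 j : ℝ) - q.2 j) := by
      unfold pt tr
      rw [if_neg hj0, if_neg hj0, h]
      ring
    rw [h3, abs_mul, abs_of_nonneg hr]
    have := hnat _ _ hj
    nlinarith
  · refine ⟨i₀, ?_⟩
    have h3 : pt I j₀ r p i₀ - pt I j₀ r q i₀ = (((d : ℝ) - I.card) * r) * ((p.1 : ℝ) - q.1) := by
      unfold pt tr
      rw [if_neg hij, if_neg hij, al_mem r hi₀, hp1, hq1]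
      ring
    have hd' : (1 : ℝ) ≤ d - I.card := by
      have h5 : I.card < d := by
        have := Finset.card_lt_univ_of_notMem (Classical.choose_spec (p := fun x => x ∉ I) (by
          by_contra hcon
          push Not at hcon
          exact hI (Finset.eq_univ_iff_forall.2 hcon)))
        rwa [Fintype.card_fin] at this
      have h6 : ((I.card + 1 : ℕ) : ℝ) ≤ d := by exact_mod_cast h5
      push_cast at h6
      linarith
    have h4 : r ≤ ((d : ℝ) - I.card) * r := by nlinarith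
    rw [h3, abs_mul, abs_of_nonneg (by linarith : 0 ≤ ((d : ℝ) - I.card) * r)]
    have := hnat _ _ h
    nlinarith

end Pool.Agent.H202.OB
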