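import Mathlib
import Pool.Agent.H202.OB.Sample
import Pool.Graph.R_pool_sql_team_seeded_3997aac3.Q64.IF.Fin

/-!
# Few pieces at small scales, in prime dimension
-/

set_option autoImplicit false

open Finset Matrix Filter Topology

namespace Pool.Agent.H202.OB

open Pool.Agent.Q64.IF H715R2
open Pool.Agent.H202.ST (mv zr zq cj zq_apply zr_apply zr_det)

variable {d : ℕ}

/-- near returns -/
def Rel (K ε : ℝ) (h : Matrix (Fin d) (Fin d) ℝ) (x y : Fin d → ℝ) : Prop :=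
  ∃ (b : Fin d → ℝ) (E : Matrix (Fin d) (Fin d) ℝ) (γ : Matrix (Fin d) (Fin d) ℤ),
    (∀ i, 1 / K ≤ b i ∧ b i ≤ K) ∧ (∀ i j, |E i j| ≤ ε) ∧ IsUnit γ.det ∧
    Matrix.diagonal (fun i => Real.exp (x i)) * h = Matrix.diagonal b * (1 + E) *
      (Matrix.diagonal (fun i => Real.exp (y i)) * h) * zr d γ

/-- every large finite set of positions contains a near return -/
def Few (K ε B : ℝ) (h : Matrix (Fin d) (Fin d) ℝ) : Prop :=
  ∀ A : Finset (Fin d → ℝ), (∀ x ∈ A, ∑ i, x i = 0) → B < A.card →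
    ∃ x ∈ A, ∃ y ∈ A, x ≠ y ∧ Rel K ε h x y ∧ Rel K ε h y x

/-- one step of the construction -/
lemma exists_return {h : Matrix (Fin d) (Fin d) ℝ} {K ε B : ℝ} (hfew : Few K ε B h)
    {I : Finset (Fin d)} (hI : I ≠ Finset.univ) {i₀ j₀ : Fin d} (hi₀ : i₀ ∈ I) (hij : i₀ ≠ j₀) {r : ℝ} (hr : 0 < r) {T S : ℕ}
    (hB : B < (T * S ^ (d - 2) : ℕ)) :
    ∃ p q, p ∈ idx i₀ j₀ T S ∧ q ∈ idx i₀ j₀ T S ∧ p ≠ q ∧ q.1 ≤ p.1 ∧
      Rel K ε h (pt I j₀ r p) (pt I j₀ r q) := by
  classical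
  have hinj : Set.InjOn (pt I j₀ r) (idx i₀ j₀ T S : Set (ℕ × (Fin d → ℕ))) := by
    intro p hp q hq hpq
    by_contra hne
    obtain ⟨i, hi⟩ := pt_sep hI hi₀ hij hr.le (Finset.mem_coe.1 hp) (Finset.mem_coe.1 hq) hne
    rw [hpq, sub_self, abs_zero] at hi
    linarith
  have hcard : ((idx i₀ j₀ T S).image (pt I j₀ r)).card = T * S ^ (d - 2) := by
    rw [Finset.card_image_of_injOn hinj, idx_card hij]
  obtain ⟨x, hx, y, hy, hxy, h1, h2⟩ := hfew ((idx i₀ j₀ T S).image (pt I j₀ r)) (by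
    intro x hx
    obtain ⟨p, hp, rfl⟩ := Finset.mem_image.1 hx
    exact pt_sum r (mem_idx hp).2.2.1) (by rw [hcard]; exact hB)
  obtain ⟨p, hp, rfl⟩ := Finset.mem_image.1 hx
  obtain ⟨q, hq, rfl⟩ := Finset.mem_image.1 hy
  have hpq : p ≠ q := fun h0 => hxy (by rw [h0])
  rcases le_total q.1 p.1 with h | h
  · exact ⟨p, q, hp, hq, hpq, h, h1⟩
  · exact ⟨q, p, hq, hp, hpq.symm, h, h2⟩

theorem main_near (hd : 3 ≤ d) (hp : d.Prime) {g h : Matrix (Fin d) (Fin d) ℝ} (hg : g.det ≠ 0)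
    (h0 : ¬ Inf0 g) (hh : h ∈ closure (Orb g)) {I : Finset (Fin d)} (hI : I.Nonempty)
    (hI' : I ≠ Finset.univ)
    {M : Matrix (Fin d) (Fin d) ℝ} (hM : M.det ≠ 0) (halg : ∀ i j, IsAlgebraic ℚ (M i j))
    (hT : ∀ i ∈ I, ∀ j, j ∉ I → (M * h⁻¹) i j = 0) (hT' : ∀ i ∈ I, ∀ j, j ∉ I → (h * M⁻¹) i j = 0)
    {K : ℝ} (hK : 1 ≤ K) {C : ℝ} (hC : 0 ≤ C)
    (hP : ∀ ε₀ : ℝ, 0 < ε₀ → ∃ ε, 0 < ε ∧ ε < ε₀ ∧
      Few K ε (C * Real.log (1 / ε) ^ (d - 1)) h) : PropInt g := by
  classical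
  have hd0 : 0 < d := by omega
  obtain ⟨ν, hν, hnu⟩ := exists_nu h0
  have hhnu := hasNu_closure hnu hh
  have hhdet : h.det ≠ 0 := by
    rw [← abs_ne_zero, abs_det_closure hh, abs_ne_zero]
    exact hg
  have hhu : IsUnit h.det := isUnit_iff_ne_zero.2 hhdet
  have hMu : IsUnit M.det := isUnit_iff_ne_zero.2 hM
  obtain ⟨R', hR'⟩ := exists_bound hd0 |h.det| ν (abs_pos.2 hhdet) hν
  set R : ℝ := |R'| with hRdef
  have hR0 : 0 ≤ R := abs_nonneg _
  have hred : ∀ x : Fin d → ℝ, ∑ i, x i = 0 → ∃ V : Matrix (Fin d) (Fin d) ℤ, IsUnit V.det ∧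
      ∀ i j, |(Matrix.diagonal (fun i => Real.exp (x i)) * h * zr d V) i j| ≤ R := by
    intro x hx
    have hprod : ∏ i, Real.exp (x i) = 1 := by
      rw [← Real.exp_sum, hx, Real.exp_zero]
    obtain ⟨V, hV, hVb⟩ := hR' (Matrix.diagonal (fun i => Real.exp (x i)) * h) (by
      rw [Matrix.det_mul, Matrix.det_diagonal, hprod, one_mul]) (by
      intro m hm
      rw [FF_diag_mul, hprod, one_mul]
      exact hhnu m hm)
    exact ⟨V, hV, fun i j => (hVb i j).trans (le_abs_self _)⟩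
  -- constants
  have hdR : (3 : ℝ) ≤ d := by exact_mod_cast hd
  set r : ℝ := Real.log (2 * K) + 1 with hr
  have hr1 : 1 ≤ r := by
    have : 0 ≤ Real.log (2 * K) := Real.log_nonneg (by linarith)
    linarith
  obtain ⟨i₀, hi₀⟩ := hI
  obtain ⟨j₀, hj₀⟩ : ∃ j₀ : Fin d, i₀ ≠ j₀ := by
    have : Nontrivial (Fin d) := Fin.nontrivial_iff_two_le.2 (by omega)
    obtain ⟨j, hj⟩ := exists_ne i₀
    exact ⟨j, hj.symm⟩
  set κ : ℝ := 1 / (8 * ((d : ℝ) ^ 2 * (d + 1))) with hκ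
  have hκ0 : 0 < κ := by positivity
  have hκ1 : κ ≤ 1 / 2 := by
    rw [hκ, div_le_div_iff₀ (by positivity) (by norm_num)]
    nlinarith [sq_nonneg (d : ℝ)]
  obtain ⟨C₁, hC₁⟩ := exists_nat_gt (C * (4 * r * d / κ) ^ (d - 1))
  have hrd : 0 < r * d := by positivity
  -- the returns
  set S : ℝ → ℕ := fun N => ⌊κ / 2 * N / (r * d)⌋₊ with hS
  have hSle : ∀ N : ℝ, 0 ≤ N → r * (d * (S N : ℝ)) ≤ κ / 2 * N := by
    intro N hN
    have h1 : (S N : ℝ) ≤ κ / 2 * N / (r * d) := Nat.floor_le (by positivity)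
    rw [le_div_iff₀ hrd] at h1
    linarith
  have hSge : ∀ N : ℝ, 2 * (r * d) / κ ≤ N → N ≤ 4 * r * d / κ * S N := by
    intro N hN
    have h1 : κ / 2 * N / (r * d) < (S N : ℝ) + 1 := Nat.lt_floor_add_one _
    have h2 : 1 ≤ κ / 2 * N / (r * d) := by
      rw [le_div_iff₀ hrd, one_mul]
      rw [div_le_iff₀ hκ0] at hN
      linarith
    have h3 : (1 : ℝ) ≤ S N := by
      have : 1 ≤ S N := Nat.one_le_floor_iff _ |>.2 h2
      exact_mod_cast this
    rw [div_lt_iff₀ hrd] at h1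
    rw [div_mul_eq_mul_div, le_div_iff₀ hκ0]
    nlinarith
  have hstep : ∀ t : ℕ, ∃ (N : ℝ) (p q : ℕ × (Fin d → ℕ)),
      (t : ℝ) ≤ N ∧ 1 ≤ N ∧ p ∈ idx i₀ j₀ (C₁ * S N) (S N) ∧ q ∈ idx i₀ j₀ (C₁ * S N) (S N) ∧
      p ≠ q ∧ q.1 ≤ p.1 ∧ Rel K (Real.exp (-N)) h (pt I j₀ r p) (pt I j₀ r q) := by
    intro t
    obtain ⟨ε, hε0, hε, hfew⟩ := hP (Real.exp (-((t : ℝ) + 1 + 2 * (r * d) / κ))) (Real.exp_pos _)
    set N : ℝ := Real.log (1 / ε) with hN
    have hNε : Real.exp (-N) = ε := by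
      rw [hN, one_div, Real.log_inv, neg_neg, Real.exp_log hε0]
    have hNge : (t : ℝ) + 1 + 2 * (r * d) / κ < N := by
      rw [← hNε] at hε
      have := Real.exp_lt_exp.1 hε
      linarith
    have ht0 : (0 : ℝ) ≤ t := Nat.cast_nonneg _
    have hq0 : 0 ≤ 2 * (r * d) / κ := by positivity
    obtain ⟨p, q, h1, h2, h3, h4, h5⟩ := exists_return hfew hI' hi₀ hj₀ (r := r) (by linarith)
      (T := C₁ * S N) (S := S N) (by
        have e1 : ((C₁ * S N * S N ^ (d - 2) : ℕ) : ℝ) = C₁ * (S N : ℝ) ^ (d - 1) := by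
          push_cast
          rw [mul_assoc, ← pow_succ', show d - 2 + 1 = d - 1 by omega]
        rw [e1]
        have e2 := hSge N (by linarith)
        have e3 : N ^ (d - 1) ≤ (4 * r * d / κ * S N) ^ (d - 1) :=
          pow_le_pow_left₀ (by linarith) e2 _
        have e4 : (0 : ℝ) < (S N : ℝ) ^ (d - 1) := by
          have e5 : (0 : ℝ) < S N := by
            by_contra hcon
            have e6 : (S N : ℝ) = 0 := le_antisymm (not_lt.1 hcon) (Nat.cast_nonneg _)
            rw [e6, mul_zero] at e2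
            linarith
          positivity
        rw [mul_pow] at e3
        calc C * N ^ (d - 1) ≤ C * ((4 * r * d / κ) ^ (d - 1) * (S N : ℝ) ^ (d - 1)) :=
              mul_le_mul_of_nonneg_left e3 hC
          _ = C * (4 * r * d / κ) ^ (d - 1) * (S N : ℝ) ^ (d - 1) := by ring
          _ < C₁ * (S N : ℝ) ^ (d - 1) := mul_lt_mul_of_pos_right hC₁ e4)
    exact ⟨N, p, q, by linarith, by linarith, h1, h2, h3, h4, by rw [hNε]; exact h5⟩
  choose N p q hNt hN1 hp1 hq1 hpq hle hrel using hstep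
  choose b E γ hb hE hγ hcl using hrel
  have hV' : ∀ t, ∃ V : Matrix (Fin d) (Fin d) ℤ, IsUnit V.det ∧
      ∀ i j, |(Matrix.diagonal (fun i => Real.exp (pt I j₀ r (q t) i)) * h * zr d V) i j| ≤ R :=
    fun t => hred _ (pt_sum r (mem_idx (hq1 t)).2.2.1)
  choose V hV hVb using hV'
  set α := al I r with hα
  set ρ : ℕ → ℝ := fun t => r * (d * (S (N t) : ℝ)) with hρ
  have hρN : ∀ t, ρ t ≤ κ / 2 * N t := fun t => hSle _ (by linarith [hN1 t])
  set L : ℕ → ℝ := fun t => N t - 2 * ρ t with hL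
  have hLN : ∀ t, N t / 2 ≤ L t := by
    intro t
    have h1 := hρN t
    have h2 := hN1 t
    simp only [hL]
    nlinarith
  have hρL : ∀ t, ρ t ≤ κ * L t := by
    intro t
    have h1 := hρN t
    have h2 := hLN t
    nlinarith
  have htr : ∀ t, ∀ j, |r * tr j₀ (q t).2 j| ≤ ρ t := by
    intro t j
    rw [abs_mul, abs_of_nonneg (by linarith : 0 ≤ r)]
    exact mul_le_mul_of_nonneg_left (tr_abs (mem_idx (hq1 t)).2.2.2 j) (by linarith)
  have htr' : ∀ t, ∀ j, |r * tr j₀ (p t).2 j| ≤ ρ t := by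
    intro t j
    rw [abs_mul, abs_of_nonneg (by linarith : 0 ≤ r)]
    exact mul_le_mul_of_nonneg_left (tr_abs (mem_idx (hp1 t)).2.2.2 j) (by linarith)
  have hε1 : ∀ t, Real.exp (-N t) ≤ 1 / 2 := by
    intro t
    have h1 : Real.exp (-N t) ≤ Real.exp (-1) := Real.exp_le_exp.2 (by linarith [hN1 t])
    have h2 : Real.exp (-1) ≤ 1 / 2 := by
      rw [Real.exp_neg, ← one_div]
      refine one_div_le_one_div_of_le (by norm_num) ?_
      have := Real.add_one_le_exp (1 : ℝ)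
      linarith
    exact h1.trans h2
  have hlow := al_low (I := I) (r := r) (by linarith)
  have hmax := al_max (I := I) (r := r) (by linarith)
  have hb' : ∀ t i, 0 ≤ b t i ∧ b t i ≤ K := fun t i =>
    ⟨le_trans (by positivity) (hb t i).1, (hb t i).2⟩
  set TT := sumAbs (M * h⁻¹) with hTT
  set TT' := sumAbs (h * M⁻¹) with hTT'
  have hTT0 : 0 ≤ TT := sumAbs_nonneg _
  have hTT0' : 0 ≤ TT' := sumAbs_nonneg _
  set Cc : ℝ := 1 + TT * R + TT * (K * (2 * d * R)) + TT * TT' * K with hCc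
  have hp0 : 0 ≤ TT * R := by positivity
  have hp1' : 0 ≤ TT * (K * (2 * d * R)) := by positivity
  have hp2 : 0 ≤ TT * TT' * K := by positivity
  have hexpL : ∀ t, Real.exp (ρ t) ≤ Real.exp (κ * L t) := fun t => Real.exp_le_exp.2 (hρL t)
  have hReps : Reps M α I Cc κ (2 * C₁) (fun t => (q t).1) (fun t => (p t).1) L V
      (fun t => (γ t)⁻¹ * V t) (fun t => (γ t)⁻¹) := by
    refine ⟨al_sum I r, by linarith, hκ0.le, hV, fun t => ?_, fun t i j => ?_, fun t i j => ?_,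
      hle, fun t => ?_, fun t => ?_, ?_, fun t => rfl, fun t i hi j hj => ?_⟩
    · rw [Matrix.det_mul, Matrix.det_nonsing_inv]
      exact (hγ t).ringInverse.mul (hV t)
    · refine (bound_T hhu hT hmax hlow hR0 (htr t) (hVb t) i j).trans ?_
      exact mul_le_mul (by linarith) (hexpL t) (Real.exp_pos _).le (by linarith)
    · have h1 := bound_next (by linarith : (0 : ℝ) ≤ K) (by linarith [hε1 t]) hR0 (hγ t)
        (hb' t) (hE t) (hcl t) (hVb t)
      refine (bound_T hhu hT hmax hlow (by positivity) (htr' t) h1 i j).trans ?_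
      exact mul_le_mul (by linarith) (hexpL t) (Real.exp_pos _).le (by linarith)
    · have := hLN t
      have := hN1 t
      linarith
    · have h1 := (mem_idx (hp1 t)).1
      have h2 : ((p t).1 : ℝ) ≤ C₁ * S (N t) := by exact_mod_cast h1.le
      have h3 : (S (N t) : ℝ) ≤ N t := by
        have h4 := hρN t
        have h5 := hN1 t
        simp only [hρ] at h4
        have h6 : (0 : ℝ) ≤ S (N t) := Nat.cast_nonneg _
        have h7 : (S (N t) : ℝ) ≤ r * (d * (S (N t) : ℝ)) := by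
          have : 1 ≤ r * d := by nlinarith
          nlinarith
        nlinarith
      have h4 := hLN t
      have h5 : (0 : ℝ) ≤ C₁ := Nat.cast_nonneg _
      push_cast
      calc ((p t).1 : ℝ) ≤ C₁ * S (N t) := h2
        _ ≤ C₁ * (2 * L t) := mul_le_mul_of_nonneg_left (by linarith) h5
        _ = 2 * C₁ * L t := by ring
    · refine tendsto_atTop_mono (fun t => hLN t) ?_
      refine Tendsto.atTop_div_const (by norm_num) ?_
      exact tendsto_atTop_mono (fun t => hNt t) tendsto_natCast_atTop_atTop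
    · have h1 := gain hhu hT hT' hmax hlow (htr t) (htr' t) (by linarith : (0 : ℝ) ≤ K)
        (Real.exp_pos _).le (hγ t) (hb' t) (hE t) (hcl t) i hi j hj
      refine h1.trans ?_
      have h2 : Real.exp (-N t) * Real.exp (-((p t).1 : ℝ) * α i + ((q t).1 : ℝ) * α j + 2 * ρ t) =
          Real.exp (-((p t).1 : ℝ) * α i + ((q t).1 : ℝ) * α j - L t) := by
        rw [← Real.exp_add]
        congr 1
        simp only [hL]
        ring
      rw [mul_assoc (TT * TT' * K), h2]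
      exact mul_le_mul_of_nonneg_right (by linarith) (Real.exp_pos _).le
  have hcore := core hd0 hM halg hReps (by
    rw [hκ]
    field_simp
    exact le_refl _) hmax hlow
  obtain ⟨t, ht⟩ := hcore.exists
  -- the invariant form
  set δ : Matrix (Fin d) (Fin d) ℤ := (γ t)⁻¹ with hδ
  have hrow : ∀ A B : Matrix (Fin d) (Fin d) ℝ, IsUnit B.det →
      (∀ i ∈ I, ∀ j, j ∉ I → (A * B⁻¹) i j = 0) → ∀ i ∈ I,
        A i ∈ Submodule.span ℝ ((fun i => B i) '' (I : Set (Fin d))) := by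
    intro A B hB hAB i hi
    have h2 : A i = ∑ j, (A * B⁻¹) i j • B j := by
      have h3 : A i = ((A * B⁻¹) * B) i := by
        rw [Matrix.mul_assoc, Matrix.nonsing_inv_mul _ hB, Matrix.mul_one]
      conv_lhs => rw [h3]
      funext k
      rw [Matrix.mul_apply, Finset.sum_apply]
      rfl
    rw [h2]
    refine Submodule.sum_mem _ fun j _ => ?_
    by_cases hj : j ∈ I
    · exact Submodule.smul_mem _ _ (Submodule.subset_span ⟨j, hj, rfl⟩)
    · rw [hAB i hi j hj, zero_smul]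
      exact Submodule.zero_mem _
  have hle1 : Submodule.span ℝ ((fun i => h i) '' (I : Set (Fin d))) ≤
      Submodule.span ℝ ((fun i => M i) '' (I : Set (Fin d))) := by
    rw [Submodule.span_le]
    rintro _ ⟨i, hi, rfl⟩
    exact hrow h M hMu hT' i hi
  have hle2 : Submodule.span ℝ ((fun i => M i) '' (I : Set (Fin d))) ≤
      Submodule.span ℝ ((fun i => h i) '' (I : Set (Fin d))) := by
    rw [Submodule.span_le]
    rintro _ ⟨i, hi, rfl⟩
    exact hrow M h hhu hT i hi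
  have hMδ : ∀ v ∈ Submodule.span ℝ ((fun i => M i) '' (I : Set (Fin d))), v ᵥ* zr d δ ∈
      Submodule.span ℝ ((fun i => M i) '' (I : Set (Fin d))) := by
    intro v hv
    induction hv using Submodule.span_induction with
    | mem v hv =>
      obtain ⟨i, hi, rfl⟩ := hv
      have h2 : M i ᵥ* zr d δ = ∑ j, cj M (zr d δ) i j • M j := by
        have h3 : M i ᵥ* zr d δ = (cj M (zr d δ) * M) i := by
          unfold cj
          rw [Matrix.mul_assoc, Matrix.nonsing_inv_mul _ hMu, Matrix.mul_one]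
          rfl
        rw [h3]
        funext k
        rw [Matrix.mul_apply, Finset.sum_apply]
        rfl
      simp only
      rw [h2]
      refine Submodule.sum_mem _ fun j _ => ?_
      by_cases hj : j ∈ I
      · exact Submodule.smul_mem _ _ (Submodule.subset_span ⟨j, hj, rfl⟩)
      · rw [ht i hi j hj, zero_smul]
        exact Submodule.zero_mem _
    | zero => rw [zero_vecMul]; exact Submodule.zero_mem _
    | add v w _ _ hv hw => rw [add_vecMul]; exact Submodule.add_mem _ hv hw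
    | smul c v _ hv => rw [smul_vecMul]; exact Submodule.smul_mem _ _ hv
  set σQ : Matrix (Fin d) (Fin d) ℚ := zq d δ with hσQ
  have hrQ : rQ d σQ = zr d δ := by
    ext i j
    rw [rQ_apply, hσQ, zq_apply, zr_apply]
    push_cast
    rfl
  have hinv : ∀ i ∈ I, h i ᵥ* rQ d σQ ∈
      Submodule.span ℝ ((fun i => h i) '' (I : Set (Fin d))) := by
    intro i hi
    rw [hrQ]
    exact hle2 (hMδ _ (hle1 (Submodule.subset_span ⟨i, hi, rfl⟩)))
  have hcard : I.card < d := by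
    have h1 := Finset.card_lt_card ((Finset.ssubset_univ_iff).2 hI')
    rwa [Finset.card_univ, Fintype.card_fin] at h1
  refine (main_coprime hd hg hh I ⟨i₀, hi₀⟩ hI' ?_ σQ
    (Or.inr ⟨hp, fun c hc => ?_⟩) hinv).resolve_left h0
  · refine (Nat.Coprime.symm ((Nat.Prime.coprime_iff_not_dvd hp).2 fun hdvd => ?_))
    have := Nat.le_of_dvd (Finset.card_pos.2 ⟨i₀, hi₀⟩) hdvd
    omega
  · obtain ⟨i, hi⟩ := pt_sep hI' hi₀ hj₀ (by linarith : (0 : ℝ) ≤ r) (hp1 t) (hq1 t) (hpq t)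
    have h3 := short_of_scalar hd0 hhu hK (hε1 t) (hγ t) (hb t) (hE t) (hcl t) ⟨c, hc⟩ i
    have h4 : r ≤ Real.log (2 * K) := hi.trans h3
    linarith

end Pool.Agent.H202.OB
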