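import Mathlib
import Pool.Agent.H202.OB.Main

/-!
# Few pieces for a form, few pieces for its limits
-/

set_option autoImplicit false

open Finset Matrix Filter Topology

namespace Pool.Agent.H202.OB

open Pool.Agent.Q64.IF H715R2
open Pool.Agent.H202.ST (mv zr zq cj zq_apply zr_apply zr_det)

variable {d : ℕ}

/-- near returns pass to limits -/
lemma rel_limit {K ε : ℝ} {h : Matrix (Fin d) (Fin d) ℝ} (hh : h.det ≠ 0)
    {G : ℕ → Matrix (Fin d) (Fin d) ℝ} (hG : Tendsto G atTop (𝓝 h)) {x y : Fin d → ℝ}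
    (hx : ∑ i, x i = 0) (hy : ∑ i, y i = 0) (hrel : ∀ n, Rel K ε (G n) x y) : Rel K ε h x y := by
  classical
  choose b E γ hb hE hγ hcl using hrel
  -- a convergent subsequence
  have hcb : IsCompact (Set.univ.pi fun _ : Fin d => Set.Icc (1 / K) K) :=
    isCompact_univ_pi fun _ => isCompact_Icc
  obtain ⟨b', hb', φ, hφ, hbl⟩ := hcb.tendsto_subseq (x := b)
    fun n i _ => ⟨(hb n i).1, (hb n i).2⟩
  obtain ⟨E', hE', ψ, hψ, hEl⟩ := (isCompact_box (d := d) ε).tendsto_subseq (x := fun n => E (φ n))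
    fun n i j => hE (φ n) i j
  have hφψ : Tendsto (fun n => φ (ψ n)) atTop atTop := hφ.tendsto_atTop.comp hψ.tendsto_atTop
  have hGl : Tendsto (fun n => G (φ (ψ n))) atTop (𝓝 h) := hG.comp hφψ
  have hbl' : Tendsto (fun n => b (φ (ψ n))) atTop (𝓝 b') := hbl.comp hψ.tendsto_atTop
  have hEl' : Tendsto (fun n => E (φ (ψ n))) atTop (𝓝 E') := hEl
  set P : ℕ → Matrix (Fin d) (Fin d) ℝ := fun n => Matrix.diagonal (b (φ (ψ n))) *
    (1 + E (φ (ψ n))) * (Matrix.diagonal (fun i => Real.exp (y i)) * G (φ (ψ n))) with hP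
  set Q : ℕ → Matrix (Fin d) (Fin d) ℝ := fun n =>
    Matrix.diagonal (fun i => Real.exp (x i)) * G (φ (ψ n)) with hQ
  set P' : Matrix (Fin d) (Fin d) ℝ := Matrix.diagonal b' * (1 + E') *
    (Matrix.diagonal (fun i => Real.exp (y i)) * h) with hP'
  set Q' : Matrix (Fin d) (Fin d) ℝ := Matrix.diagonal (fun i => Real.exp (x i)) * h with hQ'
  have hPl : Tendsto P atTop (𝓝 P') := by
    have h1 : Tendsto (fun n => Matrix.diagonal (b (φ (ψ n)))) atTop (𝓝 (Matrix.diagonal b')) :=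
      ((continuous_id.matrix_diagonal).tendsto b').comp hbl'
    exact (h1.mul (tendsto_const_nhds.add hEl')).mul (tendsto_const_nhds.mul hGl)
  have hQl : Tendsto Q atTop (𝓝 Q') := tendsto_const_nhds.mul hGl
  have hPQ : ∀ n, Q n = P n * zr d (γ (φ (ψ n))) := fun n => hcl _
  have hdetl : ∀ {F : ℕ → Matrix (Fin d) (Fin d) ℝ} {F' : Matrix (Fin d) (Fin d) ℝ},
      Tendsto F atTop (𝓝 F') → Tendsto (fun n => (F n).det) atTop (𝓝 F'.det) :=
    fun {F F'} hF => ((Continuous.matrix_det continuous_id).tendsto F').comp hF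
  have habs1 : ∀ n, |(zr d (γ (φ (ψ n)))).det| = 1 := by
    intro n
    rw [zr_det]
    rcases Int.isUnit_iff.1 (hγ (φ (ψ n))) with h | h <;> rw [h] <;> simp
  have hQdet : |Q'.det| = |h.det| := by
    rw [hQ', Matrix.det_mul, Matrix.det_diagonal, ← Real.exp_sum, hx, Real.exp_zero, one_mul]
  have hPdet : P'.det ≠ 0 := by
    have h1 : Tendsto (fun n => |(P n).det|) atTop (𝓝 |P'.det|) := (hdetl hPl).abs
    have h2 : Tendsto (fun n => |(P n).det|) atTop (𝓝 |Q'.det|) := by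
      have h3 : (fun n => |(P n).det|) = fun n => |(Q n).det| := by
        funext n
        rw [hPQ n, Matrix.det_mul (P n), abs_mul, habs1, mul_one]
      rw [h3]
      exact (hdetl hQl).abs
    have h3 := tendsto_nhds_unique h1 h2
    rw [hQdet] at h3
    intro h0
    rw [h0, abs_zero] at h3
    exact hh (abs_eq_zero.1 h3.symm)
  -- the limit of the integral matrices
  set Z : Matrix (Fin d) (Fin d) ℝ := P'.det⁻¹ • (P'.adjugate * Q') with hZ
  have hZl : Tendsto (fun n => zr d (γ (φ (ψ n)))) atTop (𝓝 Z) := by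
    have h1 : Tendsto (fun n => (P n).det⁻¹ • ((P n).adjugate * Q n)) atTop (𝓝 Z) := by
      refine ((hdetl hPl).inv₀ hPdet).smul (Tendsto.mul ?_ hQl)
      exact ((Continuous.matrix_adjugate continuous_id).tendsto P').comp hPl
    refine h1.congr' ?_
    filter_upwards [(hdetl hPl).eventually_ne hPdet] with n hn
    rw [hPQ n, ← Matrix.mul_assoc, Matrix.adjugate_mul, Matrix.smul_mul, Matrix.one_mul, smul_smul,
      inv_mul_cancel₀ hn, one_smul]
  have hPZ : P' * Z = Q' := by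
    rw [hZ, Matrix.mul_smul, ← Matrix.mul_assoc, Matrix.mul_adjugate, Matrix.smul_mul,
      Matrix.one_mul, smul_smul, inv_mul_cancel₀ hPdet, one_smul]
  have hint : ∀ i j, ∃ z : ℤ, (z : ℝ) = Z i j := by
    intro i j
    have h1 : Tendsto (fun n => zr d (γ (φ (ψ n))) i j) atTop (𝓝 (Z i j)) :=
      tendsto_pi_nhds.1 (tendsto_pi_nhds.1 hZl i) j
    have h2 : IsClosed (Set.range ((↑) : ℤ → ℝ)) := Int.isClosedEmbedding_coe_real.isClosed_range
    have h3 := h2.mem_of_tendsto h1 (Eventually.of_forall fun n => ⟨γ (φ (ψ n)) i j, by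
      rw [zr_apply]⟩)
    exact h3
  choose γ' hγ' using hint
  have hγZ : zr d (Matrix.of γ') = Z := by
    ext i j
    rw [zr_apply]
    exact hγ' i j
  refine ⟨b', E', Matrix.of γ', fun i => hb' i (Set.mem_univ i), hE', ?_, ?_⟩
  · have h1 : Tendsto (fun n => |(zr d (γ (φ (ψ n)))).det|) atTop (𝓝 |Z.det|) := (hdetl hZl).abs
    have h2 : |Z.det| = 1 := by
      refine tendsto_nhds_unique h1 ?_
      simp only [habs1]
      exact tendsto_const_nhds
    rw [← hγZ, zr_det, ← Int.cast_abs] at h2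
    exact Int.isUnit_iff_abs_eq.2 (by exact_mod_cast h2)
  · rw [hγZ]
    exact hPZ.symm

/-- the orbit of `g` can be divided into `k` classes -/
def Pc (K ε : ℝ) (g : Matrix (Fin d) (Fin d) ℝ) (k : ℕ) : Prop :=
  ∃ col : (Fin d → ℝ) → Fin k, ∀ a a' : Fin d → ℝ, (∀ i, 0 < a i) → ∏ i, a i = 1 →
    (∀ i, 0 < a' i) → ∏ i, a' i = 1 → col a = col a' →
    ∃ (b : Fin d → ℝ) (E : Matrix (Fin d) (Fin d) ℝ) (γ : Matrix (Fin d) (Fin d) ℤ),
      (∀ i, 1 / K ≤ b i ∧ b i ≤ K) ∧ (∀ i j, |E i j| ≤ ε) ∧ |γ.det| = 1 ∧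
      Matrix.diagonal a * g = Matrix.diagonal b * (1 + E) * (Matrix.diagonal a' * g) *
        γ.map (Int.cast : ℤ → ℝ)

lemma few_of_pc {K ε : ℝ} {g h : Matrix (Fin d) (Fin d) ℝ} {k : ℕ} (hg : g.det ≠ 0)
    (hh : h ∈ closure (Orb g)) (hPc : Pc K ε g k) : Few K ε k h := by
  classical
  have hhdet : h.det ≠ 0 := by
    rw [← abs_ne_zero, abs_det_closure hh, abs_ne_zero]
    exact hg
  obtain ⟨col, hcol⟩ := hPc
  intro A hA hk
  have hk' : k < A.card := by exact_mod_cast hk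
  obtain ⟨G, hGm, hGl⟩ := mem_closure_iff_seq_limit.1 hh
  choose a γ ha0 ha1 hγ hGe using hGm
  -- pairs
  have hpair : ∀ n, ∃ p : A × A, (p.1 : Fin d → ℝ) ≠ p.2 ∧ Rel K ε (G n) p.1 p.2 ∧
      Rel K ε (G n) p.2 p.1 := by
    intro n
    obtain ⟨x, hx, y, hy, hxy, hc⟩ := Finset.exists_ne_map_eq_of_card_lt_of_maps_to
      (s := A) (t := Finset.univ) (f := fun x => col (fun i => Real.exp (x i) * a n i))
      (by rw [Finset.card_univ, Fintype.card_fin]; exact hk') (fun _ _ => Finset.mem_univ _)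
    have hpos : ∀ x : Fin d → ℝ, ∀ i, 0 < Real.exp (x i) * a n i :=
      fun x i => mul_pos (Real.exp_pos _) (ha0 n i)
    have hprod : ∀ x : Fin d → ℝ, ∑ i, x i = 0 → ∏ i, Real.exp (x i) * a n i = 1 := by
      intro x hx
      rw [Finset.prod_mul_distrib, ha1 n, mul_one, ← Real.exp_sum, hx, Real.exp_zero]
    have hdiag : ∀ x : Fin d → ℝ, Matrix.diagonal (fun i => Real.exp (x i) * a n i) * g =
        Matrix.diagonal (fun i => Real.exp (x i)) * (Matrix.diagonal (a n) * g) := by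
      intro x
      rw [← Matrix.mul_assoc, Matrix.diagonal_mul_diagonal]
    have hrel : ∀ x y : Fin d → ℝ, ∑ i, x i = 0 → ∑ i, y i = 0 →
        col (fun i => Real.exp (x i) * a n i) = col (fun i => Real.exp (y i) * a n i) →
        Rel K ε (G n) x y := by
      intro x y hx hy hc
      obtain ⟨b, E, δ, hb, hE, hδ, heq⟩ := hcol _ _ (hpos x) (hprod x hx) (hpos y) (hprod y hy) hc
      rw [hdiag, hdiag] at heq
      have hδu : IsUnit δ.det := Int.isUnit_iff_abs_eq.2 hδ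
      refine ⟨b, E, (γ n)⁻¹ * δ * γ n, hb, hE, ?_, ?_⟩
      · rw [Matrix.det_mul, Matrix.det_mul, Matrix.det_nonsing_inv]
        exact ((hγ n).ringInverse.mul hδu).mul (hγ n)
      · have e1 : zr d (γ n) * zr d (γ n)⁻¹ = 1 := by
          rw [← map_mul, Matrix.mul_nonsing_inv _ (hγ n), map_one]
        have e2 : zR (γ n) = zr d (γ n) := rfl
        have e3 : δ.map (Int.cast : ℤ → ℝ) = zr d δ := rfl
        rw [hGe n, e2, map_mul, map_mul]
        rw [e3] at heq
        calc Matrix.diagonal (fun i => Real.exp (x i)) * (Matrix.diagonal (a n) * g * zr d (γ n))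
            = (Matrix.diagonal (fun i => Real.exp (x i)) * (Matrix.diagonal (a n) * g)) *
              zr d (γ n) := by simp only [Matrix.mul_assoc]
          _ = Matrix.diagonal b * (1 + E) * (Matrix.diagonal (fun i => Real.exp (y i)) *
              (Matrix.diagonal (a n) * g)) * (zr d (γ n) * zr d (γ n)⁻¹) * zr d δ *
              zr d (γ n) := by rw [heq, e1, Matrix.mul_one]
          _ = _ := by simp only [Matrix.mul_assoc]
    exact ⟨(⟨x, hx⟩, ⟨y, hy⟩), hxy, hrel x y (hA x hx) (hA y hy) hc,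
      hrel y x (hA y hy) (hA x hx) hc.symm⟩
  have hfr : ∃ᶠ _n : ℕ in atTop, ∃ p : A × A, (p.1 : Fin d → ℝ) ≠ p.2 ∧
      Rel K ε (G _n) p.1 p.2 ∧ Rel K ε (G _n) p.2 p.1 :=
    (Eventually.of_forall hpair).frequently
  obtain ⟨p, hp⟩ := Pool.Agent.H202.ST.frequently_exists_fintype
    (P := fun n (p : A × A) => (p.1 : Fin d → ℝ) ≠ p.2 ∧
      Rel K ε (G n) p.1 p.2 ∧ Rel K ε (G n) p.2 p.1) hfr
  obtain ⟨φ, hφ, hφ2⟩ := Filter.extraction_of_frequently_atTop hp
  have hGφ : Tendsto (fun n => G (φ n)) atTop (𝓝 h) := hGl.comp hφ.tendsto_atTop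
  exact ⟨p.1, p.1.2, p.2, p.2.2, (hφ2 0).1,
    rel_limit hhdet hGφ (hA _ p.1.2) (hA _ p.2.2) fun n => (hφ2 n).2.1,
    rel_limit hhdet hGφ (hA _ p.2.2) (hA _ p.1.2) fun n => (hφ2 n).2.2⟩

end Pool.Agent.H202.OB
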